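import Pool.Agent.Helper7.BM.Goals

/-!
# Project BM, packet EXD: Baker's method in the dependent case
-/

set_option autoImplicit false

open Finset Filter Topology

namespace Pool.Agent.Helper98.BM

open Pool.Agent.Helper7.BM

theorem sg_lt {p q a : ℕ} (hpq : p < q) (ha : 1 ≤ a) : sg p a < sg q a := by
  unfold sg
  apply Finset.sum_lt_sum
  · intro i _
    exact Nat.pow_le_pow_left hpq.le i
  · exact ⟨1, Finset.mem_range.2 (by omega), by simpa using hpq⟩

theorem sg_mono {q a b : ℕ} (h : a ≤ b) : sg q a ≤ sg q b := by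
  unfold sg
  apply Finset.sum_le_sum_of_subset
  exact Finset.range_mono (by omega)

theorem b_lt_a {p q a b : ℕ} (hpq : p < q) (ha : 1 ≤ a) (h : sg p a = sg q b) : b < a := by
  by_contra hcon
  push Not at hcon
  have h1 := sg_lt hpq ha
  have h2 : sg q a ≤ sg q b := sg_mono hcon
  omega

/-- powers of large `M` against the exponential function -/
theorem pow_le_exp {M : ℝ} (hM : 2 ^ 50 ≤ M) : M ^ 14 ≤ Real.exp (M / 4) := by
  have hM0 : 0 < M := by linarith
  have h1 : M ≤ Real.exp (M / 56) := by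
    have h2 := Real.quadratic_le_exp_of_nonneg (x := M / 56) (by positivity)
    nlinarith
  have h3 : Real.exp (M / 4) = (Real.exp (M / 56)) ^ 14 := by
    rw [← Real.exp_nat_mul]
    congr 1
    push_cast
    ring
  rw [h3]
  exact pow_le_pow_left₀ hM0.le h1 14

/-- EXD -/
theorem exd (h1 : StmtAB) (h2 : StmtLAM) : StmtEXD := by
  intro p q a b M hp hq hpq ha hb hs ⟨c, hc1, hc⟩ hM hlq hla
  have hp2 := hp.two_le
  have hq2 := hq.two_le
  have hba := b_lt_a hpq ha hs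
  have hMR : (2 : ℝ) ^ 50 ≤ (M : ℝ) := by exact_mod_cast hM
  have hM0 : (0 : ℝ) < M := by linarith
  have hM1 : (1 : ℝ) ≤ M := by linarith
  have hM1' : 1 ≤ M := by omega
  have hexp := pow_le_exp hMR
  have hpR : (2 : ℝ) ≤ p := by exact_mod_cast hp2
  have hpqR : (p : ℝ) < q := by exact_mod_cast hpq
  have hlp0 : 0 < Real.log p := Real.log_pos (by linarith)
  have hlq0 : 0 < Real.log q := Real.log_pos (by linarith)
  have hlpq : Real.log p ≤ Real.log q := Real.log_le_log (by linarith) hpqR.le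
  -- the number `c`
  have hcR : ((q : ℝ) - 1) / ((p : ℝ) - 1) = (p : ℝ) ^ c := by
    have h3 : ((q : ℝ) - 1) = ((p : ℝ) - 1) * (p : ℝ) ^ c := by
      have h4 : ((q - 1 : ℕ) : ℝ) = (((p - 1) * p ^ c : ℕ) : ℝ) := by rw [hc]
      rw [Nat.cast_sub (by omega), Nat.cast_mul, Nat.cast_sub (by omega), Nat.cast_pow] at h4
      simpa using h4
    rw [h3, mul_div_cancel_left₀ _ (by linarith)]
  have hlogc : Real.log (((q : ℝ) - 1) / ((p : ℝ) - 1)) = c * Real.log p := by
    rw [hcR, Real.log_pow]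
  have hcM : (c : ℝ) ≤ M := by
    have h3 : (2 : ℝ) ^ c ≤ q := by
      have h4 : 2 ^ c ≤ q := by
        calc 2 ^ c ≤ p ^ c := Nat.pow_le_pow_left hp2 c
          _ = 1 * p ^ c := (one_mul _).symm
          _ ≤ (p - 1) * p ^ c := Nat.mul_le_mul_right _ (by omega)
          _ = q - 1 := hc.symm
          _ ≤ q := Nat.sub_le _ _
      exact_mod_cast h4
    have h5 : (c : ℝ) * Real.log 2 ≤ Real.log q := by
      rw [← Real.log_pow]
      exact Real.log_le_log (by positivity) h3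
    have h6 := Real.log_two_gt_d9
    have h7 : (0 : ℝ) ≤ c := Nat.cast_nonneg c
    nlinarith
  have haM : (a : ℝ) + 2 ≤ Real.exp (M / 4) := by
    have h3 : (0 : ℝ) < (a : ℝ) + 2 := by positivity
    rw [← Real.log_le_iff_le_exp h3]
    linarith
  -- data for AB
  have hbR : (0 : ℝ) < (b : ℝ) + 1 := by positivity
  obtain ⟨i, hi⟩ := h1 (Fin (M ^ 13) × Fin (M ^ 13)) M 1
    (fun i => ((b : ℤ) + 1) * (i.1 : ℕ) + ((a : ℤ) + 1 + c) * (i.2 : ℕ)) (fun _ => 0)
    (fun i => (p : ℝ) ^ (i.1 : ℕ) * (q : ℝ) ^ (i.2 : ℕ)) (Real.log p / ((b : ℝ) + 1)) 0 hM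
    (by
      rw [Fintype.card_prod, Fintype.card_fin, ← pow_add]
      exact Nat.pow_le_pow_right hM1' (by norm_num))
    (Or.inr ⟨by
      rw [Fintype.card_prod, Fintype.card_fin, ← pow_add]
      calc 2 * M ^ 20 ≤ M ^ 6 * M ^ 20 := by
            apply Nat.mul_le_mul_right
            calc 2 ≤ M := by omega
              _ = M ^ 1 := (pow_one M).symm
              _ ≤ M ^ 6 := Nat.pow_le_pow_right hM1' (by norm_num)
        _ = M ^ (13 + 13) := by rw [← pow_add], fun _ => rfl⟩)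
    (by
      intro i
      refine ⟨?_, by simp [Real.exp_nonneg]⟩
      have hi1 : ((i.1 : ℕ) : ℝ) ≤ (M : ℝ) ^ 13 := by
        have := i.1.2.le
        exact_mod_cast this
      have hi2 : ((i.2 : ℕ) : ℝ) ≤ (M : ℝ) ^ 13 := by
        have := i.2.2.le
        exact_mod_cast this
      push_cast
      have h01 : (0 : ℝ) ≤ ((i.1 : ℕ) : ℝ) := Nat.cast_nonneg _
      have h02 : (0 : ℝ) ≤ ((i.2 : ℕ) : ℝ) := Nat.cast_nonneg _
      have hc0 : (0 : ℝ) ≤ (c : ℝ) := Nat.cast_nonneg _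
      have ha0 : (0 : ℝ) ≤ (a : ℝ) := Nat.cast_nonneg _
      have hbaR : (b : ℝ) + 1 ≤ a := by exact_mod_cast hba
      rw [abs_of_nonneg (by positivity)]
      have hM13 : (0 : ℝ) ≤ (M : ℝ) ^ 13 := by positivity
      have h3 : ((b : ℝ) + 1) * ((i.1 : ℕ) : ℝ) + ((a : ℝ) + 1 + c) * ((i.2 : ℕ) : ℝ) ≤
          (M : ℝ) ^ 13 * (2 * ((a : ℝ) + 2) + M) := by
        have e1 : ((b : ℝ) + 1) * ((i.1 : ℕ) : ℝ) ≤ (a : ℝ) * (M : ℝ) ^ 13 :=
          mul_le_mul hbaR hi1 h01 ha0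
        have e2 : ((a : ℝ) + 1 + c) * ((i.2 : ℕ) : ℝ) ≤ ((a : ℝ) + 1 + M) * (M : ℝ) ^ 13 :=
          mul_le_mul (by linarith) hi2 h02 (by positivity)
        nlinarith
      have h4 : (M : ℝ) ^ 13 * (2 * ((a : ℝ) + 2) + M) ≤
          (M : ℝ) ^ 14 * Real.exp (M / 4) + (M : ℝ) ^ 14 := by
        have e1 : (M : ℝ) ^ 13 * (2 * ((a : ℝ) + 2)) ≤ (M : ℝ) ^ 14 * Real.exp (M / 4) := by
          have e3 : (M : ℝ) ^ 13 * (2 * ((a : ℝ) + 2)) ≤ (M : ℝ) ^ 13 * (2 * Real.exp (M / 4)) := by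
            apply mul_le_mul_of_nonneg_left _ hM13
            linarith
          have e4 : (M : ℝ) ^ 13 * (2 * Real.exp (M / 4)) ≤ (M : ℝ) ^ 14 * Real.exp (M / 4) := by
            have e5 : (0 : ℝ) < Real.exp (M / 4) := Real.exp_pos _
            have e6 : (M : ℝ) ^ 14 = (M : ℝ) ^ 13 * M := by ring
            rw [e6, mul_assoc]
            apply mul_le_mul_of_nonneg_left _ hM13
            nlinarith
          exact e3.trans e4
        have e2 : (M : ℝ) ^ 14 = (M : ℝ) ^ 13 * M := by ring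
        rw [mul_add]
        linarith
      have h5 : (M : ℝ) ^ 14 * Real.exp (M / 4) + (M : ℝ) ^ 14 ≤ Real.exp M := by
        have e0 : Real.exp (M : ℝ) = Real.exp (M / 4) * Real.exp (M / 4) * Real.exp (M / 2) := by
          rw [← Real.exp_add, ← Real.exp_add]
          congr 1
          ring
        have e5 : (1 : ℝ) ≤ Real.exp (M / 4) := Real.one_le_exp (by positivity)
        have e6 : (2 : ℝ) ≤ Real.exp (M / 2) := by
          have := Real.add_one_le_exp ((M : ℝ) / 2)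
          linarith
        have e7 : (M : ℝ) ^ 14 * Real.exp (M / 4) ≤ Real.exp (M / 4) * Real.exp (M / 4) :=
          mul_le_mul_of_nonneg_right hexp (by linarith)
        have e8 : (M : ℝ) ^ 14 ≤ Real.exp (M / 4) * Real.exp (M / 4) := by nlinarith
        rw [e0]
        nlinarith [mul_nonneg (Real.exp_nonneg ((M : ℝ) / 4)) (Real.exp_nonneg ((M : ℝ) / 4))]
      linarith)
    (by
      intro i j hij
      have h3 : p ^ (i.1 : ℕ) * q ^ (i.2 : ℕ) = p ^ (j.1 : ℕ) * q ^ (j.2 : ℕ) := by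
        have h4 : (p : ℝ) ^ (i.1 : ℕ) * (q : ℝ) ^ (i.2 : ℕ) =
          (p : ℝ) ^ (j.1 : ℕ) * (q : ℝ) ^ (j.2 : ℕ) := hij
        exact_mod_cast h4
      have hpF : Fact p.Prime := ⟨hp⟩
      have hqF : Fact q.Prime := ⟨hq⟩
      have hpq' : p ≠ q := hpq.ne
      have v1 : ∀ m n : ℕ, padicValNat p (p ^ m * q ^ n) = m := by
        intro m n
        rw [padicValNat.mul (pow_ne_zero _ hp.ne_zero) (pow_ne_zero _ hq.ne_zero),
          padicValNat.prime_pow, padicValNat.pow, padicValNat_primes hpq']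
        simp
      have v2 : ∀ m n : ℕ, padicValNat q (p ^ m * q ^ n) = n := by
        intro m n
        rw [padicValNat.mul (pow_ne_zero _ hp.ne_zero) (pow_ne_zero _ hq.ne_zero),
          padicValNat.prime_pow, padicValNat.pow, padicValNat_primes hpq'.symm]
        simp
      have e1 : (i.1 : ℕ) = j.1 := by rw [← v1 i.1 i.2, h3, v1]
      have e2 : (i.2 : ℕ) = j.2 := by rw [← v2 i.1 i.2, h3, v2]
      exact Prod.ext (Fin.ext e1) (Fin.ext e2))
    (by
      intro i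
      have : (0 : ℝ) < q := by linarith
      positivity)
    (by
      intro i
      have hq0 : (0 : ℝ) < q := by linarith
      have hp0 : (0 : ℝ) < p := by linarith
      have hi1 : ((i.1 : ℕ) : ℝ) ≤ (M : ℝ) ^ 13 := by
        have := i.1.2.le
        exact_mod_cast this
      have hi2 : ((i.2 : ℕ) : ℝ) ≤ (M : ℝ) ^ 13 := by
        have := i.2.2.le
        exact_mod_cast this
      have h01 : (0 : ℝ) ≤ ((i.1 : ℕ) : ℝ) := Nat.cast_nonneg _
      have h02 : (0 : ℝ) ≤ ((i.2 : ℕ) : ℝ) := Nat.cast_nonneg _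
      rw [Real.log_mul (by positivity) (by positivity), Real.log_pow, Real.log_pow,
        abs_of_nonneg (by positivity)]
      have e1 : ((i.1 : ℕ) : ℝ) * Real.log p ≤ (M : ℝ) ^ 13 * Real.log q :=
        mul_le_mul hi1 hlpq hlp0.le (by positivity)
      have e2 : ((i.2 : ℕ) : ℝ) * Real.log q ≤ (M : ℝ) ^ 13 * Real.log q :=
        mul_le_mul_of_nonneg_right hi2 hlq0.le
      have e3 : (M : ℝ) ^ 14 = (M : ℝ) ^ 13 * M := by ring
      have e4 : (0 : ℝ) ≤ (M : ℝ) ^ 13 := by positivity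
      rw [e3]
      nlinarith)
    (le_refl 1) (by simp)
    (by
      intro i
      refine ⟨(p : ℤ) ^ (i.1 : ℕ) * (q : ℤ) ^ (i.2 : ℕ), ?_⟩
      push_cast
      ring)
  refine hi.trans_le ?_
  have hlam := h2 p q a b hp2 hpq ha hb hs
  rw [hlogc] at hlam
  have hq0 : (0 : ℝ) < q := by linarith
  have hp0 : (0 : ℝ) < p := by linarith
  have hi2 : ((i.2 : ℕ) : ℝ) ≤ (M : ℝ) ^ 13 := by
    have := i.2.2.le
    exact_mod_cast this
  have h02 : (0 : ℝ) ≤ ((i.2 : ℕ) : ℝ) := Nat.cast_nonneg _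
  have e1 : Real.log ((p : ℝ) ^ (i.1 : ℕ) * (q : ℝ) ^ (i.2 : ℕ)) -
      (Real.log p / ((b : ℝ) + 1) * (((((b : ℤ) + 1) * (i.1 : ℕ) +
        ((a : ℤ) + 1 + c) * (i.2 : ℕ)) : ℤ) : ℝ) + 0 * (((0 : ℤ)) : ℝ)) =
      ((i.2 : ℕ) : ℝ) / ((b : ℝ) + 1) * (((b : ℝ) + 1) * Real.log q - ((a : ℝ) + 1) * Real.log p -
        c * Real.log p) := by
    rw [Real.log_mul (by positivity) (by positivity), Real.log_pow, Real.log_pow]
    push_cast
    field_simp
    ring
  rw [e1, abs_mul, abs_of_nonneg (by positivity)]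
  have e2 : ((i.2 : ℕ) : ℝ) / ((b : ℝ) + 1) ≤ (M : ℝ) ^ 13 := by
    rw [div_le_iff₀ hbR]
    have : (0 : ℝ) ≤ (b : ℝ) := Nat.cast_nonneg _
    have h3 : (0 : ℝ) ≤ (M : ℝ) ^ 13 := by positivity
    nlinarith
  exact mul_le_mul e2 hlam (abs_nonneg _) (by positivity)

end Pool.Agent.Helper98.BM
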